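import Mathlib

/-!
# Linear recurrences over `𝔽₂` stable under decimation are constant
-/

set_option autoImplicit false

namespace Pool.Agent.MP484c84Poly

open Polynomial

/-- the least common multiple of `1, …, n` -/
def lcmTo : ℕ → ℕ
  | 0 => 1
  | n + 1 => Nat.lcm (lcmTo n) (n + 1)

lemma lcmTo_pos (n : ℕ) : 0 < lcmTo n := by
  induction n with
  | zero => simp [lcmTo]
  | succ n ih => exact Nat.lcm_pos ih (Nat.succ_pos n)

lemma dvd_lcmTo {e n : ℕ} (h1 : 1 ≤ e) (h2 : e ≤ n) : e ∣ lcmTo n := by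
  induction n with
  | zero => omega
  | succ n ih =>
    rcases Nat.lt_or_ge e (n + 1) with h | h
    · exact (ih (by omega)).trans (Nat.dvd_lcm_left _ _)
    · have : e = n + 1 := by omega
      rw [this]
      exact Nat.dvd_lcm_right _ _

lemma prime_pow_dvd_lcm {p k a b : ℕ} (hp : p.Prime) (ha : a ≠ 0) (hb : b ≠ 0)
    (h : p ^ k ∣ Nat.lcm a b) : p ^ k ∣ a ∨ p ^ k ∣ b := by
  rw [hp.pow_dvd_iff_le_factorization (Nat.lcm_ne_zero ha hb), Nat.factorization_lcm ha hb] at h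
  rw [hp.pow_dvd_iff_le_factorization ha, hp.pow_dvd_iff_le_factorization hb]
  rw [Finsupp.sup_apply] at h
  exact le_sup_iff.1 h

lemma prime_pow_le_of_dvd_lcmTo {p k n : ℕ} (hp : p.Prime) (h : p ^ k ∣ lcmTo n) :
    p ^ k ≤ max n 1 := by
  induction n with
  | zero =>
    simp only [lcmTo] at h
    exact (Nat.le_of_dvd one_pos h).trans (le_max_right _ _)
  | succ n ih =>
    rcases prime_pow_dvd_lcm hp (lcmTo_pos n).ne' (Nat.succ_ne_zero n) h with h1 | h1
    · exact (ih h1).trans (max_le_max (by omega) le_rfl)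
    · exact (Nat.le_of_dvd (by omega) h1).trans (le_max_left _ _)

section field
variable {F : Type} [Field F]

lemma dvd_pow_natDegree {T : F[X]} : ∀ (n : ℕ) (G : F[X]), G.natDegree = n → G ≠ 0 →
    (∀ g, Irreducible g → g ∣ G → g ∣ T) → G ∣ T ^ G.natDegree := by
  intro n
  induction n using Nat.strong_induction_on with
  | _ n ih =>
    intro G hn hG hT
    by_cases hu : IsUnit G
    · exact hu.dvd
    obtain ⟨g, hg, G', rfl⟩ := WfDvdMonoid.exists_irreducible_factor hu hG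
    have hG' : G' ≠ 0 := right_ne_zero_of_mul hG
    have hg0 : g ≠ 0 := left_ne_zero_of_mul hG
    have hdeg : (g * G').natDegree = g.natDegree + G'.natDegree := natDegree_mul hg0 hG'
    have hgpos : 0 < g.natDegree := hg.natDegree_pos
    have h1 := ih G'.natDegree (by omega) G' rfl hG'
      (fun q hq hqG => hT q hq (hqG.trans (dvd_mul_left _ _)))
    have h2 : g ∣ T := hT g hg (dvd_mul_right _ _)
    have h3 : g * G' ∣ T ^ (1 + G'.natDegree) := by
      rw [pow_add, pow_one]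
      exact mul_dvd_mul h2 h1
    exact h3.trans (pow_dvd_pow _ (by omega))

theorem pow_sub_one_mem {Φ : F[X]} (h0 : Φ.coeff 0 ≠ 0) {h : ℕ} (hdeg : Φ.natDegree ≤ h)
    {I : Ideal F[X]} (hI : ∀ d, 1 ≤ d → d ≤ h + 1 → expand F d Φ ∈ I) :
    (X ^ lcmTo h - 1 : F[X]) ^ h ∈ I := by
  obtain ⟨G, hG⟩ : ∃ G, I = Ideal.span {G} := by
    obtain ⟨G, hG⟩ := (IsPrincipalIdealRing.principal I).principal
    exact ⟨G, hG⟩
  have hdvd : ∀ d, 1 ≤ d → d ≤ h + 1 → G ∣ expand F d Φ := by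
    intro d h1 h2
    have := hI d h1 h2
    rw [hG, Ideal.mem_span_singleton] at this
    exact this
  have hΦ0 : Φ ≠ 0 := by
    rintro rfl
    simp at h0
  have hGΦ : G ∣ Φ := by
    have := hdvd 1 le_rfl (by omega)
    rwa [expand_one] at this
  have hG0 : G ≠ 0 := by
    rintro rfl
    exact hΦ0 (zero_dvd_iff.1 hGΦ)
  have hGdeg : G.natDegree ≤ h := (natDegree_le_of_dvd hGΦ hΦ0).trans hdeg
  rw [hG, Ideal.mem_span_singleton]
  refine (dvd_pow_natDegree (T := X ^ lcmTo h - 1) _ G rfl hG0 ?_).trans (pow_dvd_pow _ hGdeg)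
  intro g hg hgG
  have : Fact (Irreducible g) := ⟨hg⟩
  obtain ⟨x, hx⟩ : ∃ x : AdjoinRoot g, x = AdjoinRoot.root g := ⟨_, rfl⟩
  have hroot : ∀ d, 1 ≤ d → d ≤ h + 1 → aeval (x ^ d) Φ = 0 := by
    intro d h1 h2
    have h3 : g ∣ expand F d Φ := hgG.trans (hdvd d h1 h2)
    rw [← expand_aeval, hx, AdjoinRoot.aeval_eq]
    exact AdjoinRoot.mk_eq_zero.2 h3
  have hx0 : x ≠ 0 := by
    intro hx0
    have h1 := hroot 1 le_rfl (by omega)
    rw [hx0, pow_one] at h1
    rw [aeval_def, eval₂_at_zero] at h1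
    exact h0 ((map_eq_zero _).1 h1)
  -- pigeonhole among the roots
  have hpig : ∃ d ∈ Finset.Icc 1 (h + 1), ∃ d' ∈ Finset.Icc 1 (h + 1), d ≠ d' ∧
      x ^ d = x ^ d' := by
    classical
    apply Finset.exists_ne_map_eq_of_card_lt_of_maps_to
      (t := (Φ.map (algebraMap F (AdjoinRoot g))).roots.toFinset)
    · have h1 := (Φ.map (algebraMap F (AdjoinRoot g))).card_roots'
      have h2 := Multiset.toFinset_card_le (Φ.map (algebraMap F (AdjoinRoot g))).roots
      rw [natDegree_map] at h1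
      rw [Nat.card_Icc]
      omega
    · intro d hd
      rw [Finset.mem_coe, Finset.mem_Icc] at hd
      rw [Finset.mem_coe, Multiset.mem_toFinset, mem_roots (by
        rw [Ne, Polynomial.map_eq_zero]; exact hΦ0), IsRoot.def, eval_map_algebraMap]
      exact hroot d hd.1 hd.2
  obtain ⟨d, hd, d', hd', hne, heq⟩ := hpig
  rw [Finset.mem_Icc] at hd hd'
  have hcyc : ∃ e, 1 ≤ e ∧ e ≤ h ∧ x ^ e = 1 := by
    rcases Nat.lt_or_gt_of_ne hne with hlt | hlt
    · refine ⟨d' - d, by omega, by omega, ?_⟩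
      have h1 : x ^ d' = x ^ d * x ^ (d' - d) := by rw [← pow_add]; congr 1; omega
      rw [h1] at heq
      exact (mul_eq_left₀ (pow_ne_zero _ hx0)).1 heq.symm
    · refine ⟨d - d', by omega, by omega, ?_⟩
      have h1 : x ^ d = x ^ d' * x ^ (d - d') := by rw [← pow_add]; congr 1; omega
      rw [h1] at heq
      exact (mul_eq_left₀ (pow_ne_zero _ hx0)).1 heq
  obtain ⟨e, he1, he2, he3⟩ := hcyc
  obtain ⟨c, hc⟩ := dvd_lcmTo he1 he2
  have hM : x ^ lcmTo h = 1 := by rw [hc, pow_mul, he3, one_pow]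
  rw [← AdjoinRoot.mk_eq_zero, map_sub, map_pow, map_one, AdjoinRoot.mk_X, ← hx, hM, sub_self]

end field

end Pool.Agent.MP484c84Poly
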