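import Pool.Agent.Lib.MP484c84Par.Cone

/-!
# Products over sets with equal moments have a small argument
-/

set_option autoImplicit false

namespace Pool.Agent.MP484c84Poly

open Pool.Agent.MP484c84Par Complex

lemma coe_sum_circ (A : Finset ℕ) (f : ℕ → ℝ) :
    ((∑ j ∈ A, f j : ℝ) : Circ) = ∑ j ∈ A, ((f j : ℝ) : Circ) := by
  classical
  induction A using Finset.induction_on with
  | empty => simp
  | insert a s ha ih =>
    rw [Finset.sum_insert ha, Finset.sum_insert ha, AddCircle.coe_add, ih]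

lemma arg_mul_circ {x y : ℂ} (hx : x ≠ 0) (hy : y ≠ 0) :
    ((arg (x * y) : ℝ) : Circ) = ((arg x : ℝ) : Circ) + ((arg y : ℝ) : Circ) :=
  Complex.arg_mul_coe_angle hx hy

lemma log_remainder {r : ℕ} (hr : 1 ≤ r) {y : ℂ} (hy : ‖y‖ ≤ 1 / 4) :
    ‖log (1 + y) - logTaylor r y‖ ≤ 2 * (1 / 4) ^ r := by
  obtain ⟨m, rfl⟩ : ∃ m, r = m + 1 := ⟨r - 1, by omega⟩
  have h1 := Complex.norm_log_sub_logTaylor_le m (z := y) (by linarith)
  refine h1.trans ?_
  have h2 : ‖y‖ ^ (m + 1) ≤ (1 / 4) ^ (m + 1) := by gcongr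
  have h3 : (1 - ‖y‖)⁻¹ ≤ 2 := by
    rw [inv_le_comm₀ (by linarith) (by norm_num)]
    linarith
  have h3' : 0 ≤ (1 - ‖y‖)⁻¹ := by
    apply inv_nonneg.2; linarith
  have h4 : (1 : ℝ) ≤ (m : ℝ) + 1 := by
    have : (0 : ℝ) ≤ m := Nat.cast_nonneg m
    linarith
  calc ‖y‖ ^ (m + 1) * (1 - ‖y‖)⁻¹ / (m + 1) ≤ ‖y‖ ^ (m + 1) * (1 - ‖y‖)⁻¹ / 1 := by
        gcongr
    _ = ‖y‖ ^ (m + 1) * (1 - ‖y‖)⁻¹ := div_one _
    _ ≤ (1 / 4) ^ (m + 1) * 2 := by gcongr
    _ = 2 * (1 / 4) ^ (m + 1) := mul_comm _ _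

lemma sum_logTaylor {r : ℕ} {A A' : Finset ℕ}
    (hmom : ∀ l < r, ∑ j ∈ A, j ^ l = ∑ j ∈ A', j ^ l) (x : ℂ) :
    ∑ j ∈ A, logTaylor r (j * x) = ∑ j ∈ A', logTaylor r (j * x) := by
  have key : ∀ B : Finset ℕ, ∑ j ∈ B, logTaylor r (j * x) =
      ∑ l ∈ Finset.range r, (-1) ^ (l + 1) * x ^ l / l * ((∑ j ∈ B, j ^ l : ℕ) : ℂ) := by
    intro B
    simp only [logTaylor]
    rw [Finset.sum_comm]
    refine Finset.sum_congr rfl ?_
    intro l _
    push_cast
    rw [Finset.mul_sum]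
    refine Finset.sum_congr rfl ?_
    intro j _
    rw [mul_pow]
    ring
  rw [key, key]
  refine Finset.sum_congr rfl ?_
  intro l hl
  rw [hmom l (Finset.mem_range.1 hl)]

theorem angle_small {r n : ℕ} (hr : 1 ≤ r) {A A' : Finset ℕ} (hA : A ⊆ Finset.range n)
    (hA' : A' ⊆ Finset.range n) (hmom : ∀ l < r, ∑ j ∈ A, j ^ l = ∑ j ∈ A', j ^ l)
    {z v : GaussianInt} (hz : z ≠ 0) (hzv : 4 * n * ‖(v : ℂ)‖ ≤ ‖(z : ℂ)‖) :
    ∃ t : ℝ, |t| ≤ 4 * n * (1 / 4) ^ r ∧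
      ∑ j ∈ A, gArg (z + j * v) - ∑ j ∈ A', gArg (z + j * v) = (t : Circ) := by
  have hz' : (z : ℂ) ≠ 0 := toC_ne hz
  have hzn : 0 < ‖(z : ℂ)‖ := norm_pos_iff.2 hz'
  obtain ⟨x, hx⟩ : ∃ x : ℂ, x = (v : ℂ) / z := ⟨_, rfl⟩
  have hxn : ∀ j < n, ‖(j : ℂ) * x‖ ≤ 1 / 4 := by
    intro j hj
    rw [hx, norm_mul, norm_div, Complex.norm_natCast, mul_div_assoc', div_le_iff₀ hzn]
    have h1 : (j : ℝ) ≤ n := by exact_mod_cast hj.le
    have h2 : (j : ℝ) * ‖(v : ℂ)‖ ≤ n * ‖(v : ℂ)‖ := by gcongr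
    linarith
  have hne : ∀ j < n, 1 + (j : ℂ) * x ≠ 0 := by
    intro j hj h0
    have h1 := hxn j hj
    have h2 : (j : ℂ) * x = -1 := by linear_combination h0
    rw [h2, norm_neg, norm_one] at h1
    norm_num at h1
  have hfac : ∀ j < n, ((z + j * v : GaussianInt) : ℂ) = z * (1 + j * x) := by
    intro j _
    rw [hx, map_add, map_mul, map_natCast]
    field_simp
  have harg : ∀ j < n, gArg (z + j * v) = gArg z + (((log (1 + j * x)).im : ℝ) : Circ) := by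
    intro j hj
    unfold gArg
    rw [hfac j hj, arg_mul_circ hz' (hne j hj), Complex.log_im]
  have hsum : ∀ B : Finset ℕ, B ⊆ Finset.range n → ∑ j ∈ B, gArg (z + j * v) =
      B.card • gArg z + ((∑ j ∈ B, (log (1 + j * x)).im : ℝ) : Circ) := by
    intro B hB
    rw [coe_sum_circ, ← Finset.sum_const, ← Finset.sum_add_distrib]
    refine Finset.sum_congr rfl ?_
    intro j hj
    exact harg j (Finset.mem_range.1 (hB hj))
  have hcard : A.card = A'.card := by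
    have := hmom 0 (by omega)
    simpa using this
  obtain ⟨E, hE⟩ : ∃ E : ℂ, E = ∑ j ∈ A, log (1 + j * x) - ∑ j ∈ A', log (1 + j * x) := ⟨_, rfl⟩
  refine ⟨E.im, ?_, ?_⟩
  · refine (Complex.abs_im_le_norm E).trans ?_
    have h1 : E = ∑ j ∈ A, (log (1 + j * x) - logTaylor r (j * x)) -
        ∑ j ∈ A', (log (1 + j * x) - logTaylor r (j * x)) := by
      rw [Finset.sum_sub_distrib, Finset.sum_sub_distrib, sum_logTaylor hmom x, hE]
      ring
    have hb : ∀ B : Finset ℕ, B ⊆ Finset.range n →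
        ‖∑ j ∈ B, (log (1 + j * x) - logTaylor r (j * x))‖ ≤ n * (2 * (1 / 4) ^ r) := by
      intro B hB
      calc ‖∑ j ∈ B, (log (1 + j * x) - logTaylor r (j * x))‖
          ≤ ∑ j ∈ B, ‖log (1 + j * x) - logTaylor r (j * x)‖ := norm_sum_le _ _
        _ ≤ ∑ j ∈ B, 2 * (1 / 4) ^ r := by
            refine Finset.sum_le_sum ?_
            intro j hj
            exact log_remainder hr (hxn j (Finset.mem_range.1 (hB hj)))
        _ = B.card * (2 * (1 / 4) ^ r) := by rw [Finset.sum_const, nsmul_eq_mul]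
        _ ≤ n * (2 * (1 / 4) ^ r) := by
            have : (B.card : ℝ) ≤ n := by
              have := Finset.card_le_card hB
              rw [Finset.card_range] at this
              exact_mod_cast this
            gcongr
    rw [h1]
    refine (norm_sub_le _ _).trans ?_
    have h2 := hb A hA
    have h3 := hb A' hA'
    linarith
  · rw [hsum A hA, hsum A' hA', hcard, hE, Complex.sub_im, Complex.im_sum, Complex.im_sum,
      AddCircle.coe_sub]
    abel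

end Pool.Agent.MP484c84Poly
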