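import Pool.Agent.Lib.MP484c84Poly.Func

/-!
# The decimation argument
-/

set_option autoImplicit false

namespace Pool.Agent.MP484c84Poly

open Polynomial

lemma ordProj_le {h t l : ℕ} (hh : 1 ≤ h) (hl : l.Prime) :
    ordProj[l] (2 ^ t * lcmTo h) ≤ 2 ^ t * h := by
  have h0 : lcmTo h ≠ 0 := (lcmTo_pos h).ne'
  have h1 : ordProj[l] (2 ^ t * lcmTo h) = l ^ ((2 ^ t).factorization l) * ordProj[l] (lcmTo h) := by
    rw [Nat.factorization_mul (by positivity) h0, Finsupp.add_apply, pow_add]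
  rw [h1]
  apply Nat.mul_le_mul
  · exact Nat.le_of_dvd (by positivity) (Nat.ordProj_dvd _ _)
  · have := prime_pow_le_of_dvd_lcmTo hl (Nat.ordProj_dvd (lcmTo h) l)
    rwa [max_eq_left hh] at this

theorem const_of_rel {Φ : (ZMod 2)[X]} (hΦ : Φ.Monic) {h : ℕ} (hdeg : Φ.natDegree = h)
    (hh : 1 ≤ h) (h0 : Φ.coeff 0 ≠ 0) {t : ℕ} (ht : h ≤ 2 ^ t) (b : ℕ → ℕ → ZMod 2)
    (hrel : ∀ q, 1 ≤ q → q ≤ 2 ^ t * h → ∀ d, 1 ≤ d → (d ≤ h + 1 ∨ d = q) →
      ∀ i ≤ (q + h + 2) * h, ∑ j ∈ Finset.range (h + 1), Φ.coeff j * b q (i + d * j) = 0)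
    (hab : ∀ q, 1 ≤ q → q ≤ 2 ^ t * h → ∀ j < h, b q (q * j) = b 1 j) :
    b 1 1 = b 1 0 := by
  obtain ⟨M, hM⟩ : ∃ M, M = 2 ^ t * lcmTo h := ⟨_, rfl⟩
  have hM0 : M ≠ 0 := by
    rw [hM]
    have := lcmTo_pos h
    positivity
  have h1Q : 1 ≤ 2 ^ t * h := by
    have : 1 ≤ 2 ^ t := Nat.one_le_two_pow
    nlinarith
  -- values
  have hval : ∀ q, 1 ≤ q → q ≤ 2 ^ t * h → ∀ n ≤ (q + h + 2) * h,
      ext Φ h (b q) (X ^ n) = b q n := by
    intro q hq1 hq2 n hn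
    refine ext_X_pow hΦ hdeg (b q) (I := (q + h + 2) * h + 1) ?_ n (by omega)
    intro i hi
    have := hrel q hq1 hq2 1 le_rfl (Or.inl (by omega)) i (by omega)
    simpa using this
  have hkill : ∀ q, 1 ≤ q → q ≤ 2 ^ t * h → ∀ d, 1 ≤ d → (d ≤ h + 1 ∨ d = q) → ∀ P,
      ext Φ h (b q) (expand (ZMod 2) d Φ * P) = 0 := by
    intro q hq1 hq2 d hd1 hd2 P
    refine ext_expand_mul hΦ hdeg (b q) ?_ ?_ P
    · intro n hn
      apply hval q hq1 hq2
      rcases hd2 with h2 | h2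
      · have : d * h ≤ (h + 1) * h := Nat.mul_le_mul_right _ h2
        nlinarith
      · rw [h2] at hn
        nlinarith
    · intro i hi
      apply hrel q hq1 hq2 d hd1 hd2
      nlinarith
  -- the big period
  have hper : ∀ q, 1 ≤ q → q ≤ 2 ^ t * h → ∀ P,
      ext Φ h (b q) (X ^ M * P) = ext Φ h (b q) P := by
    intro q hq1 hq2 P
    obtain ⟨I, hI⟩ : ∃ I : Ideal (ZMod 2)[X], ∀ R, R ∈ I ↔ ∀ P, ext Φ h (b q) (R * P) = 0 :=
      ⟨{ carrier := {R | ∀ P, ext Φ h (b q) (R * P) = 0}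
         add_mem' := by
           intro x y hx hy P
           rw [add_mul, map_add, hx P, hy P, add_zero]
         zero_mem' := by intro P; simp
         smul_mem' := by
           intro c x hx P
           rw [smul_eq_mul, mul_comm c x, mul_assoc]
           exact hx _ }, fun R => Iff.rfl⟩
    have h1 := pow_sub_one_mem (Φ := Φ) h0 (h := h) hdeg.le (I := I) (by
      intro d hd1 hd2
      rw [hI]
      exact hkill q hq1 hq2 d hd1 (Or.inl hd2))
    have h2 : (X ^ lcmTo h - 1 : (ZMod 2)[X]) ^ (2 ^ t) ∈ I := by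
      have e : (X ^ lcmTo h - 1 : (ZMod 2)[X]) ^ (2 ^ t) =
          (X ^ lcmTo h - 1 : (ZMod 2)[X]) ^ (2 ^ t - h) * (X ^ lcmTo h - 1 : (ZMod 2)[X]) ^ h := by
        rw [← pow_add]; congr 1; omega
      rw [e]
      exact I.mul_mem_left _ h1
    have e2 : (X ^ lcmTo h - 1 : (ZMod 2)[X]) ^ (2 ^ t) = X ^ M - 1 := by
      have : Fact (Nat.Prime 2) := ⟨Nat.prime_two⟩
      rw [sub_pow_char_pow, one_pow, ← pow_mul, hM, mul_comm]
    rw [e2, hI] at h2
    have h3 := h2 P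
    rw [sub_mul, one_mul, map_sub, sub_eq_zero] at h3
    exact h3
  -- the set of periods
  obtain ⟨S, hS⟩ : ∃ S : ℕ → Prop, ∀ m, S m ↔ 0 < m ∧ ∀ P,
      ext Φ h (b 1) (X ^ m * P) = ext Φ h (b 1) P := ⟨_, fun _ => Iff.rfl⟩
  have hSM : S M := (hS M).2 ⟨Nat.pos_of_ne_zero hM0, hper 1 le_rfl h1Q⟩
  have hSq : ∀ l, l.Prime → l ∣ M → S (ordCompl[l] M) := by
    intro l hl hlM
    obtain ⟨q, hq⟩ : ∃ q, q = ordProj[l] M := ⟨_, rfl⟩
    have hq1 : 1 ≤ q := by rw [hq]; exact Nat.one_le_iff_ne_zero.2 (pow_ne_zero _ hl.ne_zero)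
    have hq2 : q ≤ 2 ^ t * h := by rw [hq, hM]; exact ordProj_le hh hl
    have hqM : q * (M / q) = M := Nat.mul_div_cancel' (by rw [hq]; exact Nat.ordProj_dvd _ _)
    rw [← hq, hS]
    refine ⟨Nat.div_pos (Nat.le_of_dvd (Nat.pos_of_ne_zero hM0)
      (by rw [hq]; exact Nat.ordProj_dvd _ _)) hq1, ?_⟩
    have hdec : ∀ P, ext Φ h (b 1) P = ext Φ h (b q) (expand (ZMod 2) q P) := by
      intro P
      refine ext_decimate hΦ hdeg (b 1) (b q) ?_ ?_ (hab q hq1 hq2) P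
      · intro n hn
        apply hval q hq1 hq2
        nlinarith
      · intro i hi
        apply hrel q hq1 hq2 q hq1 (Or.inr rfl)
        nlinarith
    intro P
    rw [hdec, map_mul, map_pow, expand_X, ← pow_mul, hqM, hper q hq1 hq2, ← hdec]
  classical
  have hex : ∃ m, S m := ⟨M, hSM⟩
  obtain ⟨m, hmdef⟩ : ∃ m, m = Nat.find hex := ⟨_, rfl⟩
  have hmS : S m := by rw [hmdef]; exact Nat.find_spec hex
  have hmin : ∀ m', S m' → m ≤ m' := by
    intro m' hm'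
    rw [hmdef]
    exact Nat.find_min' hex hm'
  have hm0 := ((hS m).1 hmS).1
  have hmP := ((hS m).1 hmS).2
  have hmul : ∀ u, ∀ P, ext Φ h (b 1) (X ^ (u * m) * P) = ext Φ h (b 1) P := by
    intro u
    induction u with
    | zero => intro P; simp
    | succ u ih =>
      intro P
      rw [add_mul, one_mul, pow_add, mul_assoc, ih, hmP]
  have hmdvd : ∀ m', S m' → m ∣ m' := by
    intro m' hm'
    by_contra hnd
    have hr : 0 < m' % m := Nat.pos_of_ne_zero (fun h2 => hnd (Nat.dvd_of_mod_eq_zero h2))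
    have hrS : S (m' % m) := by
      rw [hS]
      refine ⟨hr, ?_⟩
      intro P
      have h1 := ((hS m').1 hm').2 P
      have h2 : m' = (m' / m) * m + m' % m := by
        have := Nat.div_add_mod m' m
        rw [mul_comm] at this
        exact this.symm
      rw [h2, pow_add, mul_assoc, hmul] at h1
      exact h1
    have h3 : m ≤ m' % m := hmin _ hrS
    have h4 := Nat.mod_lt m' hm0
    omega
  have hm1 : m = 1 := by
    by_contra hne
    obtain ⟨l, hl, hlm⟩ := Nat.exists_prime_and_dvd hne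
    have hlM : l ∣ M := hlm.trans (hmdvd M hSM)
    have h1 := hmdvd _ (hSq l hl hlM)
    exact Nat.not_dvd_ordCompl hl hM0 (hlm.trans h1)
  have h1 := hmP 1
  rw [hm1, mul_one] at h1
  have e1 := hval 1 le_rfl h1Q 1 (by nlinarith)
  have e0 := hval 1 le_rfl h1Q 0 (by positivity)
  rw [pow_zero] at e0
  rw [← e1, ← e0]
  exact h1

end Pool.Agent.MP484c84Poly
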