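import Mathlib

/-!
# Two short disjoint sets of integers with equal moments (pigeonhole)
-/

set_option autoImplicit false

namespace Pool.Agent.MP484c84Poly

lemma card_ineq {r : ℕ} (hr : 1 ≤ r) : ((16 * r ^ 3) ^ r + 1) ^ r < 2 ^ (16 * r ^ 3) := by
  have h1 : r ≤ 2 ^ r := (Nat.lt_two_pow_self).le
  have h2 : 16 * r ^ 3 ≤ 2 ^ (4 + 3 * r) := by
    calc 16 * r ^ 3 ≤ 2 ^ 4 * (2 ^ r) ^ 3 := by gcongr; norm_num
      _ = 2 ^ (4 + 3 * r) := by rw [← pow_mul, ← pow_add, mul_comm r 3]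
  have h3 : (16 * r ^ 3) ^ r + 1 ≤ 2 * (16 * r ^ 3) ^ r := by
    have : 1 ≤ (16 * r ^ 3) ^ r := Nat.one_le_pow _ _ (by positivity)
    omega
  calc ((16 * r ^ 3) ^ r + 1) ^ r ≤ (2 * (16 * r ^ 3) ^ r) ^ r := by gcongr
    _ ≤ (2 * (2 ^ (4 + 3 * r)) ^ r) ^ r := by gcongr
    _ = 2 ^ (r + (4 + 3 * r) * r * r) := by
        rw [mul_pow, ← pow_mul, ← pow_mul, ← pow_add, mul_assoc]
    _ < 2 ^ (16 * r ^ 3) := by
        apply Nat.pow_lt_pow_right (by norm_num)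
        have h4 : r ≤ r ^ 3 := Nat.le_self_pow (by norm_num) r
        have h5 : r ^ 2 ≤ r ^ 3 := Nat.pow_le_pow_right hr (by norm_num)
        have h6 : 1 ≤ r ^ 3 := Nat.one_le_pow _ _ hr
        have h7 : (4 + 3 * r) * r * r = 4 * r ^ 2 + 3 * r ^ 3 := by ring
        omega

theorem exists_pte {r : ℕ} (hr : 1 ≤ r) : ∃ A A' : Finset ℕ,
    A ⊆ Finset.range (16 * r ^ 3) ∧ A' ⊆ Finset.range (16 * r ^ 3) ∧ Disjoint A A' ∧
    A ≠ A' ∧ ∀ l < r, ∑ j ∈ A, j ^ l = ∑ j ∈ A', j ^ l := by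
  classical
  obtain ⟨n, hn⟩ : ∃ n, n = 16 * r ^ 3 := ⟨_, rfl⟩
  have hn1 : 1 ≤ n := by
    rw [hn]
    have : 1 ≤ r ^ 3 := Nat.one_le_pow _ _ hr
    omega
  have hmom : ∀ B ∈ (Finset.range n).powerset, ∀ l : Fin r,
      (∑ j ∈ B, j ^ (l : ℕ)) < n ^ r + 1 := by
    intro B hB l
    rw [Finset.mem_powerset] at hB
    have h1 : ∑ j ∈ B, j ^ (l : ℕ) ≤ ∑ j ∈ Finset.range n, n ^ (l : ℕ) := by
      calc ∑ j ∈ B, j ^ (l : ℕ) ≤ ∑ j ∈ Finset.range n, j ^ (l : ℕ) :=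
            Finset.sum_le_sum_of_subset hB
        _ ≤ ∑ j ∈ Finset.range n, n ^ (l : ℕ) := by
            apply Finset.sum_le_sum
            intro j hj
            exact Nat.pow_le_pow_left (Finset.mem_range.1 hj).le _
    rw [Finset.sum_const, Finset.card_range, smul_eq_mul, ← pow_succ'] at h1
    have h2 : n ^ ((l : ℕ) + 1) ≤ n ^ r := Nat.pow_le_pow_right hn1 (by omega)
    omega
  obtain ⟨f, hf⟩ : ∃ f : Finset ℕ → (Fin r → ℕ),
    f = (fun (B : Finset ℕ) (l : Fin r) => ∑ j ∈ B, j ^ (l : ℕ)) := ⟨_, rfl⟩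
  obtain ⟨B, hB, B', hB', hne, heq⟩ : ∃ B ∈ (Finset.range n).powerset,
      ∃ B' ∈ (Finset.range n).powerset, B ≠ B' ∧ f B = f B' := by
    apply Finset.exists_ne_map_eq_of_card_lt_of_maps_to
      (t := Fintype.piFinset (fun _ : Fin r => Finset.range (n ^ r + 1)))
    · rw [Fintype.card_piFinset, Finset.card_powerset, Finset.card_range]
      simp only [Finset.card_range, Finset.prod_const, Finset.card_univ, Fintype.card_fin]
      rw [hn]
      exact card_ineq hr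
    · intro B hB
      rw [Finset.mem_coe, Fintype.mem_piFinset]
      intro l
      rw [Finset.mem_range, hf]
      exact hmom B hB l
  rw [Finset.mem_powerset] at hB hB'
  refine ⟨B \ B', B' \ B, ?_, ?_, ?_, ?_, ?_⟩
  · rw [← hn]; exact Finset.sdiff_subset.trans hB
  · rw [← hn]; exact Finset.sdiff_subset.trans hB'
  · exact disjoint_sdiff_sdiff
  · intro h
    apply hne
    have h1 : B \ B' = ∅ := by
      have hd : Disjoint (B \ B') (B' \ B) := disjoint_sdiff_sdiff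
      rw [← h] at hd
      exact disjoint_self.1 hd
    have h2 : B' \ B = ∅ := by rw [← h, h1]
    exact Finset.Subset.antisymm (Finset.sdiff_eq_empty_iff_subset.1 h1)
      (Finset.sdiff_eq_empty_iff_subset.1 h2)
  · intro l hl
    have h1 := congrFun heq ⟨l, hl⟩
    rw [hf] at h1
    simp only at h1
    have h2 : ∑ j ∈ B \ B', j ^ l + ∑ j ∈ B ∩ B', j ^ l = ∑ j ∈ B, j ^ l := by
      rw [add_comm]
      exact Finset.sum_inter_add_sum_sdiff B B' _
    have h3 : ∑ j ∈ B' \ B, j ^ l + ∑ j ∈ B ∩ B', j ^ l = ∑ j ∈ B', j ^ l := by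
      rw [Finset.inter_comm, add_comm]
      exact Finset.sum_inter_add_sum_sdiff B' B _
    omega

end Pool.Agent.MP484c84Poly
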