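import Pool.Agent.Lib.MP484c84Poly.Rel
import Pool.Agent.Lib.MP484c84Poly.Const
import Pool.Agent.Lib.MP484c84Poly.Pte

/-!
# The sign function is locally constant on large Gaussian integers
-/

set_option autoImplicit false

namespace Pool.Agent.MP484c84Poly

open Pool.Agent.MP484c84Par Real Polynomial

/-- additive form of the sign -/
noncomputable def sg2 (g : ℕ → ℤ) (z : GaussianInt) : ZMod 2 := if F g z = 1 then 0 else 1

lemma sum_sg2 {g : ℕ → ℤ} (h : CM g) (B : Finset ℕ) (z : ℕ → GaussianInt)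
    (hz : ∀ j ∈ B, z j ≠ 0) (hprod : ∏ j ∈ B, F g (z j) = 1) : ∑ j ∈ B, sg2 g (z j) = 0 := by
  classical
  have key : ∀ B : Finset ℕ, (∀ j ∈ B, z j ≠ 0) →
      (∏ j ∈ B, F g (z j) = 1 ∧ ∑ j ∈ B, sg2 g (z j) = 0) ∨
      (∏ j ∈ B, F g (z j) = -1 ∧ ∑ j ∈ B, sg2 g (z j) = 1) := by
    intro B
    induction B using Finset.induction_on with
    | empty => intro _; left; simp
    | insert a s ha ih =>
      intro hz
      rw [Finset.prod_insert ha, Finset.sum_insert ha]
      have h1 := ih (fun j hj => hz j (Finset.mem_insert_of_mem hj))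
      have h2 := F_sign h (hz a (Finset.mem_insert_self a s))
      rcases h2 with h2 | h2
      · have h3 : sg2 g (z a) = 0 := by unfold sg2; rw [if_pos h2]
        rcases h1 with ⟨h4, h5⟩ | ⟨h4, h5⟩
        · left; rw [h2, h3, h4, h5]; norm_num
        · right; rw [h2, h3, h4, h5]; norm_num
      · have h3 : sg2 g (z a) = 1 := by
          unfold sg2; rw [if_neg]; rw [h2]; norm_num
        rcases h1 with ⟨h4, h5⟩ | ⟨h4, h5⟩
        · right; rw [h2, h3, h4, h5]; norm_num
        · left; rw [h2, h3, h4, h5]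
          refine ⟨by norm_num, ?_⟩
          decide
  rcases key B hz with h1 | h1
  · exact h1.2
  · rw [hprod] at h1
    norm_num at h1

lemma norm_toC_sq (z : GaussianInt) : ‖(z : ℂ)‖ ^ 2 = (z.norm : ℝ) := by
  rw [← Complex.normSq_eq_norm_sq, GaussianInt.intCast_real_norm]

lemma sg2_natCast_mul {g : ℕ → ℤ} (h : CM g) {q : ℕ} (hq : 1 ≤ q) {z : GaussianInt} (hz : z ≠ 0) :
    sg2 g (q * z) = sg2 g z := by
  unfold sg2
  have h1 : ((q : ℤ) : GaussianInt) ≠ 0 := by
    have : (q : ℤ) ≠ 0 := by omega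
    exact_mod_cast this
  have h2 := F_mul h h1 hz
  rw [F_intCast h (by omega), one_mul] at h2
  have h3 : ((q : ℤ) : GaussianInt) = (q : GaussianInt) := by push_cast; rfl
  rw [h3] at h2
  rw [h2]

section
variable {g : ℕ → ℤ} (h : CM g) {x n : ℕ} (hn : 0 < n) {τ : ℝ} (hτ : 0 < τ)
  (hτ' : 2 * τ < π / 2) (hx : 2 * n ^ 2 ≤ x) {r N : ℕ} (hr : 1 ≤ r) (hN : N = 16 * r ^ 3)
  (hsmall : 4 * N * (1 / 4) ^ r ≤ τ) (hμ : (2 * N + 1) * muErr g x n τ < 2 * π)
include h hn hτ hτ' hx hr hN hsmall hμ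

theorem step_const {z v : GaussianInt} (hz : z ≠ 0) (hzv : 13 * N ^ 2 * ‖(v : ℂ)‖ ≤ ‖(z : ℂ)‖)
    (hnorm : 16 * (N : ℤ) ^ 4 * z.norm * (2 * (n : ℤ) ^ 2) ≤ x) :
    sg2 g (z + v) = sg2 g z := by
  classical
  obtain ⟨A, A', hA, hA', hdis, hneA, hmom⟩ := exists_pte hr
  rw [← hN] at hA hA'
  have hN1 : 1 ≤ N := by
    rw [hN]
    have : 1 ≤ r ^ 3 := Nat.one_le_pow _ _ hr
    omega
  have hcard : A.card = A'.card := by
    have := hmom 0 (by omega)
    simpa using this
  have hAne : A.Nonempty := by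
    rw [Finset.nonempty_iff_ne_empty]
    intro h1
    apply hneA
    rw [h1, Finset.card_empty] at hcard
    rw [h1]
    exact (Finset.card_eq_zero.1 hcard.symm).symm
  obtain ⟨J, hJ⟩ : ∃ J, J = A ∪ A' := ⟨_, rfl⟩
  have hJN : J ⊆ Finset.range N := by rw [hJ]; exact Finset.union_subset hA hA'
  have hJne : J.Nonempty := by rw [hJ]; exact hAne.mono Finset.subset_union_left
  have hJcard : 2 ≤ J.card := by
    rw [hJ, Finset.card_union_of_disjoint hdis, ← hcard]
    have := hAne.card_pos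
    omega
  obtain ⟨j0, hj0⟩ : ∃ j0, j0 = J.min' hJne := ⟨_, rfl⟩
  have hj0J : j0 ∈ J := by rw [hj0]; exact Finset.min'_mem _ _
  have hj0le : ∀ j ∈ J, j0 ≤ j := by intro j hj; rw [hj0]; exact Finset.min'_le _ _ hj
  obtain ⟨j1, hj1⟩ : ∃ j1, j1 = J.max' hJne := ⟨_, rfl⟩
  have hj1J : j1 ∈ J := by rw [hj1]; exact Finset.max'_mem _ _
  have hj1le : ∀ j ∈ J, j ≤ j1 := by intro j hj; rw [hj1]; exact Finset.le_max' _ _ hj
  have hj1N : j1 < N := Finset.mem_range.1 (hJN hj1J)
  have hj01 : j0 < j1 := by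
    rcases Nat.lt_or_ge j0 j1 with h1 | h1
    · exact h1
    · exfalso
      have h2 : J ⊆ {j0} := by
        intro j hj
        rw [Finset.mem_singleton]
        have := hj0le j hj
        have := hj1le j hj
        omega
      have := Finset.card_le_card h2
      rw [Finset.card_singleton] at this
      omega
  obtain ⟨d0, hd0⟩ : ∃ d0, d0 = j1 - j0 := ⟨_, rfl⟩
  have hd01 : 1 ≤ d0 := by omega
  have hd0N : d0 + 1 ≤ N := by omega
  -- the polynomial
  obtain ⟨Φ, hΦ⟩ : ∃ Φ : (ZMod 2)[X], Φ = ∑ j ∈ J, X ^ (j - j0) := ⟨_, rfl⟩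
  have hcoeff : ∀ k, Φ.coeff k = if k + j0 ∈ J then 1 else 0 := by
    intro k
    rw [hΦ, finsetSum_coeff]
    simp only [coeff_X_pow]
    by_cases hk : k + j0 ∈ J
    · rw [if_pos hk, Finset.sum_eq_single (k + j0)]
      · simp
      · intro b hb hne
        have := hj0le b hb
        rw [if_neg (by omega)]
      · intro h1; exact absurd hk h1
    · rw [if_neg hk]
      apply Finset.sum_eq_zero
      intro b hb
      have := hj0le b hb
      rw [if_neg]
      intro h1
      apply hk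
      have : k + j0 = b := by omega
      rw [this]; exact hb
  have hdeg : Φ.natDegree = d0 := by
    apply natDegree_eq_of_le_of_coeff_ne_zero
    · rw [natDegree_le_iff_coeff_eq_zero]
      intro k hk
      rw [hcoeff, if_neg]
      intro h1
      have := hj1le _ h1
      omega
    · rw [hcoeff, if_pos]
      · exact one_ne_zero
      · have : d0 + j0 = j1 := by omega
        rw [this]; exact hj1J
  have hmonic : Φ.Monic := by
    rw [Monic, leadingCoeff, hdeg, hcoeff, if_pos]
    have : d0 + j0 = j1 := by omega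
    rw [this]; exact hj1J
  have hc0 : Φ.coeff 0 ≠ 0 := by
    rw [hcoeff, zero_add, if_pos hj0J]
    exact one_ne_zero
  -- powers of two
  obtain ⟨t, ht1, ht2⟩ : ∃ t, d0 ≤ 2 ^ t ∧ 2 ^ t ≤ 2 * d0 := by
    refine ⟨Nat.clog 2 d0, Nat.le_pow_clog (by norm_num) _, ?_⟩
    rcases Nat.lt_or_ge 1 d0 with h1 | h1
    · have h2 := Nat.pow_pred_clog_lt_self (b := 2) (by norm_num) h1
      have h3 : 0 < Nat.clog 2 d0 := Nat.clog_pos (by norm_num) h1
      have h4 : 2 ^ Nat.clog 2 d0 = 2 * 2 ^ (Nat.clog 2 d0).pred := by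
        rw [← pow_succ']
        congr 1
        exact (Nat.succ_pred_eq_of_pos h3).symm
      omega
    · have : d0 = 1 := by omega
      rw [this]; simp
  -- real norms
  obtain ⟨Z, hZ⟩ : ∃ Z, Z = ‖(z : ℂ)‖ := ⟨_, rfl⟩
  obtain ⟨V, hV⟩ : ∃ V, V = ‖(v : ℂ)‖ := ⟨_, rfl⟩
  rw [← hZ, ← hV] at hzv
  have hZ0 : 0 < Z := by rw [hZ]; exact norm_pos_iff.2 (toC_ne hz)
  have hV0 : 0 ≤ V := by rw [hV]; exact norm_nonneg _
  have hN1' : (1 : ℝ) ≤ N := by exact_mod_cast hN1
  have hQ : 2 ^ t * d0 ≤ 2 * N ^ 2 := by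
    calc 2 ^ t * d0 ≤ (2 * d0) * d0 := Nat.mul_le_mul_right _ ht2
      _ = 2 * (d0 * d0) := by ring
      _ ≤ 2 * (N * N) := by
          apply Nat.mul_le_mul_left
          exact Nat.mul_le_mul (by omega) (by omega)
      _ = 2 * N ^ 2 := by ring
  have hnr : (z.norm : ℝ) = Z ^ 2 := by rw [hZ, norm_toC_sq]
  have hnorm' : 16 * (N : ℝ) ^ 4 * Z ^ 2 * (2 * (n : ℝ) ^ 2) ≤ x := by
    rw [← hnr]
    exact_mod_cast hnorm
  -- general bound
  have hgen : ∀ q : ℕ, 1 ≤ q → q ≤ 2 ^ t * d0 → ∀ e : ℤ, |(e : ℝ)| ≤ 5 * q * N ^ 2 →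
      q * (Z - 5 * N ^ 2 * V) ≤ ‖(((q : GaussianInt) * z + (e : GaussianInt) * v : GaussianInt) : ℂ)‖ ∧
      (((q : GaussianInt) * z + (e : GaussianInt) * v).norm : ℤ) * (2 * (n : ℤ) ^ 2) ≤ x := by
    intro q hq1 hq2 e he
    have hq1' : (1 : ℝ) ≤ q := by exact_mod_cast hq1
    have hq2' : (q : ℝ) ≤ 2 * N ^ 2 := by exact_mod_cast hq2.trans hQ
    have e1 : (((q : GaussianInt) * z + (e : GaussianInt) * v : GaussianInt) : ℂ) =
        (q : ℂ) * z + (e : ℂ) * v := by
      rw [map_add, map_mul, map_mul, map_natCast, map_intCast]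
    have n1 : ‖(q : ℂ) * z‖ = q * Z := by rw [norm_mul, Complex.norm_natCast, hZ]
    have n2 : ‖(e : ℂ) * v‖ ≤ q * (5 * N ^ 2 * V) := by
      rw [norm_mul, Complex.norm_intCast, ← hV]
      calc |(e : ℝ)| * V ≤ (5 * q * N ^ 2) * V := by gcongr
        _ = q * (5 * N ^ 2 * V) := by ring
    constructor
    · rw [e1]
      have := norm_sub_le_norm_add ((q : ℂ) * z) ((e : ℂ) * v)
      rw [n1] at this
      linarith
    · have hup : ‖(q : ℂ) * z + (e : ℂ) * v‖ ≤ 2 * q * Z := by
        refine (norm_add_le _ _).trans ?_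
        rw [n1]
        have h5 : 5 * (N : ℝ) ^ 2 * V ≤ Z := by nlinarith [mul_nonneg (sq_nonneg (N : ℝ)) hV0]
        have h6 : (q : ℝ) * (5 * N ^ 2 * V) ≤ q * Z := by gcongr
        linarith
      have h7 : (((q : GaussianInt) * z + (e : GaussianInt) * v).norm : ℝ) ≤ 16 * N ^ 4 * Z ^ 2 := by
        rw [← norm_toC_sq, e1]
        calc ‖(q : ℂ) * z + (e : ℂ) * v‖ ^ 2 ≤ (2 * q * Z) ^ 2 := by gcongr
          _ ≤ (2 * (2 * N ^ 2) * Z) ^ 2 := by gcongr
          _ = 16 * N ^ 4 * Z ^ 2 := by ring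
      have h8 : (((q : GaussianInt) * z + (e : GaussianInt) * v).norm : ℝ) * (2 * (n : ℝ) ^ 2) ≤ x :=
        (mul_le_mul_of_nonneg_right h7 (by positivity)).trans hnorm'
      exact_mod_cast h8
  have hZV : 0 < Z - 5 * N ^ 2 * V := by
    have : 0 ≤ (N : ℝ) ^ 2 * V := by positivity
    nlinarith
  have hgen0 : ∀ q : ℕ, 1 ≤ q → q ≤ 2 ^ t * d0 → ∀ e : ℤ, |(e : ℝ)| ≤ 5 * q * N ^ 2 →
      (q : GaussianInt) * z + (e : GaussianInt) * v ≠ 0 := by
    intro q hq1 hq2 e he h0
    have h1 := (hgen q hq1 hq2 e he).1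
    rw [h0, map_zero, norm_zero] at h1
    have hq1' : (0 : ℝ) < q := by exact_mod_cast hq1
    have := mul_pos hq1' hZV
    linarith
  -- the sequences
  obtain ⟨b, hb⟩ : ∃ b : ℕ → ℕ → ZMod 2,
    b = (fun (q j : ℕ) => sg2 g ((q : GaussianInt) * z + (j : GaussianInt) * v)) := ⟨_, rfl⟩
  have hmain : b 1 1 = b 1 0 := by
    refine const_of_rel hmonic hdeg hd01 hc0 ht1 b ?_ ?_
    · intro q hq1 hq2 d hd1 hd2 i hi
      have hq1' : (1 : ℝ) ≤ q := by exact_mod_cast hq1
      have hdq : d ≤ q + N := by rcases hd2 with h1 | h1 <;> omega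
      have hdq' : (d : ℝ) ≤ q + N := by exact_mod_cast hdq
      have hi' : i ≤ (q + N + 1) * N := hi.trans (Nat.mul_le_mul (by omega) (by omega))
      have hi'' : (i : ℝ) ≤ (q + N + 1) * N := by exact_mod_cast hi'
      have hbase : ∀ j : ℕ, j < N → ∀ j' : ℕ, j' < N →
          |(((i : ℤ) + ((j : ℤ) - j') * d : ℤ) : ℝ)| ≤ 5 * q * N ^ 2 := by
        intro j hj j' hj'
        push_cast
        have hjj : |(j : ℝ) - j'| ≤ N := by
          rw [abs_le]
          have h1 : (j : ℝ) ≤ N := by exact_mod_cast hj.le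
          have h2 : (j' : ℝ) ≤ N := by exact_mod_cast hj'.le
          have h3 : (0 : ℝ) ≤ j := Nat.cast_nonneg _
          have h4 : (0 : ℝ) ≤ j' := Nat.cast_nonneg _
          constructor <;> linarith
        have hd0' : (0 : ℝ) ≤ d := Nat.cast_nonneg _
        calc |(i : ℝ) + ((j : ℝ) - j') * d| ≤ |(i : ℝ)| + |((j : ℝ) - j') * d| := abs_add_le _ _
          _ = i + |(j : ℝ) - j'| * d := by
              rw [abs_mul, abs_of_nonneg hd0', abs_of_nonneg (Nat.cast_nonneg i)]
          _ ≤ (q + N + 1) * N + N * (q + N) := by gcongr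
          _ ≤ 5 * q * N ^ 2 := by
              have a1 : (q : ℝ) * N ≤ q * N ^ 2 := by
                have : (N : ℝ) ≤ N ^ 2 := by nlinarith
                gcongr
              have a2 : (N : ℝ) ^ 2 ≤ q * N ^ 2 := by nlinarith [sq_nonneg (N : ℝ)]
              have a3 : (N : ℝ) ≤ q * N ^ 2 := by nlinarith
              nlinarith
      -- apply the relation
      obtain ⟨w, hw⟩ : ∃ w : GaussianInt, w = (q : GaussianInt) * z +
        (((i : ℤ) + (((0 : ℕ) : ℤ) - j0) * d : ℤ) : GaussianInt) * v := ⟨_, rfl⟩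
      have hwj : ∀ j : ℕ, w + j * ((d : GaussianInt) * v) = (q : GaussianInt) * z +
          (((i : ℤ) + ((j : ℤ) - j0) * d : ℤ) : GaussianInt) * v := by
        intro j
        rw [hw]; push_cast; ring
      have hj0N : j0 < N := Finset.mem_range.1 (hJN hj0J)
      have hrelJ := rel_prod h hn hτ hτ' hx hr hA hA' hdis hmom hsmall hμ
        (z := w) (v := (d : GaussianInt) * v)
        (by
          rw [hw]
          exact hgen0 q hq1 hq2 _ (hbase 0 (by omega) j0 hj0N))
        (by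
          have h1 := (hgen q hq1 hq2 _ (hbase 0 (by omega) j0 hj0N)).1
          rw [hw]
          refine le_trans ?_ h1
          rw [map_mul, map_natCast, norm_mul, Complex.norm_natCast, ← hV]
          have a1 : (4 : ℝ) * N * (d * V) ≤ 4 * N * ((q + N) * V) := by gcongr
          have a2 : (4 : ℝ) * N * ((q + N) * V) ≤ q * (8 * N ^ 2 * V) := by
            have b1 : (4 : ℝ) * N * (q + N) ≤ q * (8 * N ^ 2) := by
              have c1 : (q : ℝ) * N ≤ q * N ^ 2 := by
                have : (N : ℝ) ≤ N ^ 2 := by nlinarith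
                gcongr
              have c2 : (N : ℝ) ^ 2 ≤ q * N ^ 2 := by nlinarith [sq_nonneg (N : ℝ)]
              nlinarith
            calc (4 : ℝ) * N * ((q + N) * V) = (4 * N * (q + N)) * V := by ring
              _ ≤ (q * (8 * N ^ 2)) * V := by gcongr
              _ = q * (8 * N ^ 2 * V) := by ring
          have a3 : (8 : ℝ) * N ^ 2 * V ≤ Z - 5 * N ^ 2 * V := by linarith
          calc (4 : ℝ) * N * (d * V) ≤ q * (8 * N ^ 2 * V) := a1.trans a2
            _ ≤ q * (Z - 5 * N ^ 2 * V) := by gcongr)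
        (by
          intro j hj
          rw [hwj]
          exact hgen0 q hq1 hq2 _ (hbase j hj j0 hj0N))
        (by
          intro j hj
          rw [hwj]
          exact (hgen q hq1 hq2 _ (hbase j hj j0 hj0N)).2)
      rw [← hJ] at hrelJ
      have hsum := sum_sg2 h J (fun j => w + j * ((d : GaussianInt) * v))
        (by
          intro j hj
          have hj' := Finset.mem_range.1 (hJN hj)
          rw [hwj]
          exact hgen0 q hq1 hq2 _ (hbase j hj' j0 hj0N)) hrelJ
      rw [← hsum]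
      -- compare the two sums
      have h1 : ∑ j ∈ Finset.range (d0 + 1), Φ.coeff j * b q (i + d * j) =
          ∑ j ∈ (Finset.range (d0 + 1)).filter (fun j => j + j0 ∈ J), b q (i + d * j) := by
        rw [Finset.sum_filter]
        refine Finset.sum_congr rfl ?_
        intro j _
        rw [hcoeff]
        split_ifs <;> simp
      rw [h1]
      refine Finset.sum_bij (fun j _ => j + j0) ?_ ?_ ?_ ?_
      · intro j hj
        exact (Finset.mem_filter.1 hj).2
      · intro a _ a' _ haa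
        omega
      · intro j hj
        have h2 := hj0le j hj
        have h3 := hj1le j hj
        refine ⟨j - j0, ?_, by omega⟩
        rw [Finset.mem_filter, Finset.mem_range]
        refine ⟨by omega, ?_⟩
        have : j - j0 + j0 = j := by omega
        rw [this]; exact hj
      · intro j _
        rw [hwj, hb]
        simp only
        congr 2
        push_cast
        ring
    · intro q hq1 hq2 j hj
      rw [hb]
      simp only
      have h1 : (q : GaussianInt) * z + ((q * j : ℕ) : GaussianInt) * v =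
          (q : GaussianInt) * (((1 : ℕ) : GaussianInt) * z + j * v) := by push_cast; ring
      rw [h1]
      apply sg2_natCast_mul h hq1
      have h2 := hgen0 1 le_rfl (by
        have : 1 ≤ 2 ^ t := Nat.one_le_two_pow
        nlinarith) (j : ℤ) (by
          push_cast
          rw [abs_of_nonneg (Nat.cast_nonneg j)]
          have : (j : ℝ) ≤ N := by exact_mod_cast (by omega : j ≤ N)
          nlinarith)
      simpa using h2
  rw [hb] at hmain
  simpa using hmain

end

end Pool.Agent.MP484c84Poly
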