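import Pool.Agent.Lib.MP484c84Poly.Core
import Pool.Agent.Lib.MP484c84Par.Minus

/-!
# Choice of parameters
-/

set_option autoImplicit false

namespace Pool.Agent.MP484c84Poly

open Pool.Agent.MP484c84Par Real

section
variable {g : ℕ → ℤ} (h : CM g) {x n : ℕ} (hn : 0 < n) {τ : ℝ} (hτ : 0 < τ)
  (hτ' : 2 * τ < π / 2) {r N : ℕ} (hr : 1 ≤ r) (hN : N = 16 * r ^ 3)
  (hsmall : 4 * N * (1 / 4) ^ r ≤ τ) (hμ : (2 * N + 1) * muErr g x n τ < 2 * π)
include h hn hτ hτ' hr hN hsmall hμ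

theorem F_eq_one {a b : ℕ} (ha : 1 ≤ a) {p : ℕ} (hp : a ^ 2 + b ^ 2 = p)
    (hx : 5408 * N ^ 8 * p * n ^ 2 ≤ x) : F g ⟨a, b⟩ = 1 := by
  have hN1 : 1 ≤ N := by
    rw [hN]
    have : 1 ≤ r ^ 3 := Nat.one_le_pow _ _ hr
    omega
  have hp1 : 1 ≤ p := by rw [← hp]; nlinarith
  have hx2 : 2 * n ^ 2 ≤ x := by
    refine le_trans ?_ hx
    apply Nat.mul_le_mul_right
    have : 1 ≤ N ^ 8 := Nat.one_le_pow _ _ hN1
    nlinarith
  obtain ⟨m, hm⟩ : ∃ m, m = 13 * N ^ 2 := ⟨_, rfl⟩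
  have hm1 : 1 ≤ m := by
    rw [hm]
    have : 1 ≤ N ^ 2 := Nat.one_le_pow _ _ hN1
    omega
  -- a step
  have hstep : ∀ (c d : ℕ) (v : GaussianInt), (v : ℂ).re ^ 2 + (v : ℂ).im ^ 2 = 1 → m ≤ c →
      c ^ 2 + d ^ 2 ≤ m ^ 2 * p → sg2 g (⟨c, d⟩ + v) = sg2 g ⟨c, d⟩ := by
    intro c d v hv hc hcd
    refine step_const h hn hτ hτ' hx2 hr hN hsmall hμ ?_ ?_ ?_
    · intro h0
      have := congrArg Zsqrtd.re h0
      simp at this
      omega
    · have h1 : ‖(v : ℂ)‖ = 1 := by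
        rw [Complex.norm_eq_sqrt_sq_add_sq, hv, sqrt_one]
      rw [h1, mul_one]
      have h2 : (13 * (N : ℝ) ^ 2) = m := by rw [hm]; push_cast; ring
      rw [h2]
      have h3 : (c : ℝ) ≤ ‖((⟨c, d⟩ : GaussianInt) : ℂ)‖ := by
        have h4 : ((⟨c, d⟩ : GaussianInt) : ℂ).re = c := by simp [GaussianInt.toComplex_def]
        rw [← h4]
        exact Complex.re_le_norm _
      have h4 : (m : ℝ) ≤ c := by exact_mod_cast hc
      exact h4.trans h3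
    · rw [norm_def']
      simp only
      have h5 : 16 * N ^ 4 * (c * c + d * d) * (2 * n ^ 2) ≤ x := by
        refine le_trans ?_ hx
        calc 16 * N ^ 4 * (c * c + d * d) * (2 * n ^ 2)
            = 32 * N ^ 4 * n ^ 2 * (c ^ 2 + d ^ 2) := by ring
          _ ≤ 32 * N ^ 4 * n ^ 2 * (m ^ 2 * p) := Nat.mul_le_mul_left _ hcd
          _ = 5408 * N ^ 8 * p * n ^ 2 := by rw [hm]; ring
      exact_mod_cast h5
  have hma : (m * a) ^ 2 + (m * b) ^ 2 = m ^ 2 * p := by rw [← hp]; ring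
  -- horizontal
  have hhor : ∀ i, m + i ≤ m * a → sg2 g ⟨((m + i : ℕ) : ℤ), ((0 : ℕ) : ℤ)⟩ = sg2 g ⟨(m : ℤ), ((0 : ℕ) : ℤ)⟩ := by
    intro i
    induction i with
    | zero => intro _; simp
    | succ i ih =>
      intro hi
      rw [← ih (by omega), ← hstep (m + i) 0 ⟨1, 0⟩ (by simp [GaussianInt.toComplex_def]) (by omega)
        (by
          have : (m + i) ^ 2 ≤ (m * a) ^ 2 := Nat.pow_le_pow_left (by omega) 2
          nlinarith)]
      congr 1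
  -- vertical
  have hver : ∀ j, j ≤ m * b → sg2 g ⟨((m * a : ℕ) : ℤ), (j : ℤ)⟩ = sg2 g ⟨((m * a : ℕ) : ℤ), ((0 : ℕ) : ℤ)⟩ := by
    intro j
    induction j with
    | zero => intro _; rfl
    | succ j ih =>
      intro hj
      rw [← ih (by omega), ← hstep (m * a) j ⟨0, 1⟩ (by simp [GaussianInt.toComplex_def])
        (Nat.le_mul_of_pos_right m ha)
        (by
          have : j ^ 2 ≤ (m * b) ^ 2 := Nat.pow_le_pow_left (by omega) 2
          nlinarith)]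
      congr 1
  have h1 := hver (m * b) le_rfl
  have h2 := hhor (m * a - m) (by
    have := Nat.le_mul_of_pos_right m ha
    omega)
  have h3 : m + (m * a - m) = m * a := by
    have := Nat.le_mul_of_pos_right m ha
    omega
  rw [h3] at h2
  rw [h2] at h1
  have hk0 : (⟨a, b⟩ : GaussianInt) ≠ 0 := by
    intro h0
    have := congrArg Zsqrtd.re h0
    simp at this
    omega
  have e1 : (⟨((m * a : ℕ) : ℤ), ((m * b : ℕ) : ℤ)⟩ : GaussianInt) = (m : GaussianInt) * ⟨a, b⟩ := by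
    apply Zsqrtd.ext <;> simp
  have e2 : (⟨(m : ℤ), ((0 : ℕ) : ℤ)⟩ : GaussianInt) = (m : GaussianInt) * 1 := by
    apply Zsqrtd.ext <;> simp
  rw [e1, e2, sg2_natCast_mul h hm1 hk0, sg2_natCast_mul h hm1 one_ne_zero] at h1
  have h5 : sg2 g 1 = 0 := by
    unfold sg2
    rw [if_pos]
    have := F_intCast h (n := 1) one_ne_zero
    simpa using this
  rw [h5] at h1
  unfold sg2 at h1
  by_contra hcon
  rw [if_neg hcon] at h1
  exact one_ne_zero h1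

end

theorem edges_lower_poly {g : ℕ → ℤ} (h : CM g) {a b p : ℕ} (ha : 1 ≤ a) (hp : a ^ 2 + b ^ 2 = p)
    (hk : F g ⟨a, b⟩ = -1) {x r N : ℕ} (hr : 1 ≤ r) (hxr : x ≤ 4 ^ r) (hN : N = 16 * r ^ 3)
    (hx : 1081600 * N ^ 9 * p ≤ x) :
    (x : ℝ) ≤ 1038336 * (N : ℝ) ^ 10 * p * (badEdges g x).card := by
  have hN16 : 16 ≤ N := by
    rw [hN]
    have : 1 ≤ r ^ 3 := Nat.one_le_pow _ _ hr
    omega
  have hp1 : 1 ≤ p := by rw [← hp]; nlinarith
  obtain ⟨D, hD⟩ : ∃ D, D = 5408 * N ^ 8 * p := ⟨_, rfl⟩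
  have hD0 : 0 < D := by
    rw [hD]
    have : 0 < N := by omega
    positivity
  obtain ⟨n, hn⟩ : ∃ n, n = Nat.sqrt (x / D) := ⟨_, rfl⟩
  have hn1 : D * n ^ 2 ≤ x := by
    have h1 : n * n ≤ x / D := by rw [hn]; exact Nat.sqrt_le _
    calc D * n ^ 2 = D * (n * n) := by ring
      _ ≤ D * (x / D) := Nat.mul_le_mul_left _ h1
      _ ≤ x := Nat.mul_div_le _ _
  have hn2 : x < D * (n + 1) ^ 2 := by
    have h1 : x / D < (n + 1) * (n + 1) := by rw [hn]; exact Nat.lt_succ_sqrt _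
    calc x < D * (x / D + 1) := Nat.lt_mul_div_succ x hD0
      _ ≤ D * ((n + 1) * (n + 1)) := Nat.mul_le_mul_left _ h1
      _ = _ := by ring
  have hbig : 200 * N < (n + 1) ^ 2 := by
    have h1 : D * (200 * N) < D * (n + 1) ^ 2 := by
      refine lt_of_le_of_lt ?_ hn2
      calc D * (200 * N) = 1081600 * N ^ 9 * p := by rw [hD]; ring
        _ ≤ x := hx
    exact Nat.lt_of_mul_lt_mul_left h1
  have hn0 : 0 < n := by
    rcases Nat.eq_zero_or_pos n with h0 | h0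
    · rw [h0] at hbig
      omega
    · exact h0
  have hn0' : (1 : ℝ) ≤ n := by exact_mod_cast hn0
  have hN0' : (16 : ℝ) ≤ N := by exact_mod_cast hN16
  have hNpos : (0 : ℝ) < N := by linarith
  have hbig' : 200 * (N : ℝ) < ((n : ℝ) + 1) ^ 2 := by exact_mod_cast hbig
  have hn2' : (x : ℝ) < D * ((n : ℝ) + 1) ^ 2 := by exact_mod_cast hn2
  have hn1' : (D : ℝ) * (n : ℝ) ^ 2 ≤ x := by exact_mod_cast hn1
  obtain ⟨τ, hτ⟩ : ∃ τ : ℝ, τ = 48 * N / ((n : ℝ) + 1) ^ 2 := ⟨_, rfl⟩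
  have hτ0 : 0 < τ := by rw [hτ]; positivity
  have hτ' : 2 * τ < π / 2 := by
    have h1 : τ < 48 / 200 := by
      rw [hτ, div_lt_div_iff₀ (by positivity) (by norm_num)]
      linarith
    have := pi_gt_three
    linarith
  have hsmall : 4 * N * (1 / 4) ^ r ≤ τ := by
    have h1 : ((n : ℝ) + 1) ^ 2 ≤ 4 * (n : ℝ) ^ 2 := by nlinarith
    have hD4 : (4 : ℝ) ≤ D := by
      have : 4 ≤ D := by
        rw [hD]
        have : 1 ≤ N ^ 8 := Nat.one_le_pow _ _ (by omega)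
        nlinarith
      exact_mod_cast this
    have h2 : ((n : ℝ) + 1) ^ 2 ≤ x := by
      refine h1.trans (le_trans ?_ hn1')
      gcongr
    have h3 : (x : ℝ) ≤ 4 ^ r := by exact_mod_cast hxr
    have h4 : (1 / 4 : ℝ) ^ r = 1 / 4 ^ r := by rw [one_div_pow]
    rw [h4, hτ, mul_one_div, div_le_div_iff₀ (by positivity) (by positivity)]
    have h5 : ((n : ℝ) + 1) ^ 2 ≤ 4 ^ r := h2.trans h3
    calc 4 * (N : ℝ) * ((n : ℝ) + 1) ^ 2 ≤ 4 * N * 4 ^ r := by gcongr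
      _ ≤ 48 * N * 4 ^ r := by gcongr; norm_num
  have hfinal : 2 * π ≤ (2 * N + 1) * muErr g x n τ := by
    by_contra hcon
    push Not at hcon
    have h1 := F_eq_one h hn0 hτ0 hτ' hr hN hsmall hcon ha hp (by rw [← hD]; exact hn1)
    rw [hk] at h1
    norm_num at h1
  have hmu : (2 * N + 1) * muErr g x n τ ≤ 3 + 576 * (N : ℝ) ^ 2 / ((n : ℝ) + 1) ^ 2 *
      (badEdges g x).card := by
    have e1 : muErr g x n τ = 1 / N + 192 * N / ((n : ℝ) + 1) ^ 2 * (badEdges g x).card := by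
      unfold muErr
      rw [hτ]
      field_simp
      ring
    have h3 : (2 * N + 1 : ℝ) ≤ 3 * N := by linarith
    calc (2 * N + 1) * muErr g x n τ ≤ (3 * N) * muErr g x n τ :=
          mul_le_mul_of_nonneg_right h3 (muErr_nonneg hn0 hτ0)
      _ = 3 + 576 * (N : ℝ) ^ 2 / ((n : ℝ) + 1) ^ 2 * (badEdges g x).card := by
          rw [e1]; field_simp; ring
  have h5 : 3 ≤ 576 * (N : ℝ) ^ 2 / ((n : ℝ) + 1) ^ 2 * (badEdges g x).card := by
    have := pi_gt_three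
    linarith
  rw [div_mul_eq_mul_div, le_div_iff₀ (by positivity)] at h5
  have h6 : (D : ℝ) = 5408 * (N : ℝ) ^ 8 * p := by rw [hD]; push_cast; ring
  have h7 : 0 ≤ (D : ℝ) := Nat.cast_nonneg _
  have h8 : (x : ℝ) * 3 ≤ D * (576 * (N : ℝ) ^ 2 * (badEdges g x).card) := by
    calc (x : ℝ) * 3 ≤ (D * ((n : ℝ) + 1) ^ 2) * 3 := by linarith
      _ = D * (3 * ((n : ℝ) + 1) ^ 2) := by ring
      _ ≤ _ := by gcongr
  rw [h6] at h8
  have h9 : 5408 * (N : ℝ) ^ 8 * p * (576 * (N : ℝ) ^ 2 * (badEdges g x).card) =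
    3 * (1038336 * (N : ℝ) ^ 10 * p * (badEdges g x).card) := by ring
  linarith

/-- **Minus sign, polylogarithmic loss.** -/
theorem minus_bound_poly {g : ℕ → ℤ} (h : CM g) {p : ℕ} (hp : p.Prime)
    (hp1 : p = 2 ∨ p % 4 = 1) (hgp : g p = -1) {x : ℕ} (hx : 1 ≤ x) :
    (x : ℝ) ≤ 10 ^ 58 * (p : ℝ) ^ 2 * (1 + log x) ^ 92 * ((signSet g (-1) x).card + 1) := by
  obtain ⟨Λ, hΛ⟩ : ∃ Λ, Λ = 1 + log x := ⟨_, rfl⟩
  have hx1 : (1 : ℝ) ≤ x := by exact_mod_cast hx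
  have hx0 : (0 : ℝ) < x := by linarith
  have hlog : 0 ≤ log x := log_nonneg hx1
  have hΛ1 : 1 ≤ Λ := by rw [hΛ]; linarith
  rw [← hΛ]
  have hp2 : (2 : ℝ) ≤ p := by exact_mod_cast hp.two_le
  have := Fact.mk hp
  obtain ⟨a, b, hab⟩ := Nat.Prime.sq_add_sq (p := p) (by omega)
  have ha : 1 ≤ a := by
    rcases Nat.eq_zero_or_pos a with h0 | h0
    · exfalso
      rw [h0] at hab
      have h1 : b * b = p := by rw [← hab]; ring
      have h2 : IsUnit b ∨ IsUnit b := hp.prime.irreducible.isUnit_or_isUnit h1.symm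
      have h3 : b = 1 := by rcases h2 with h2 | h2 <;> exact Nat.isUnit_iff.1 h2
      rw [h3] at h1
      have := hp.one_lt
      omega
    · exact h0
  have hk : F g ⟨a, b⟩ = -1 := by
    unfold F
    have : (⟨a, b⟩ : GaussianInt).norm = (p : ℤ) := by
      rw [norm_def', ← hab]; push_cast; ring
    rw [this, Int.natAbs_natCast, hgp]
  obtain ⟨r, hr⟩ : ∃ r, r = ⌈log x⌉₊ + 1 := ⟨_, rfl⟩
  have hr1 : 1 ≤ r := by omega
  have hr2 : log x ≤ r := by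
    rw [hr]; push_cast
    linarith [Nat.le_ceil (log x)]
  have hr3 : (r : ℝ) ≤ 2 * Λ := by
    rw [hr, hΛ]; push_cast
    have := Nat.ceil_lt_add_one hlog
    linarith
  have hxr : x ≤ 4 ^ r := by
    have h1 : (x : ℝ) ≤ 4 ^ r := by
      calc (x : ℝ) = exp (log x) := (exp_log hx0).symm
        _ ≤ exp (r * 1) := by apply exp_le_exp.2; linarith
        _ = exp 1 ^ r := by rw [exp_nat_mul]
        _ ≤ 4 ^ r := by
            have := exp_one_lt_three.le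
            gcongr
            linarith
    exact_mod_cast h1
  obtain ⟨N, hN⟩ : ∃ N, N = 16 * r ^ 3 := ⟨_, rfl⟩
  have hNΛ : (N : ℝ) ≤ 128 * Λ ^ 3 := by
    rw [hN]; push_cast
    calc 16 * (r : ℝ) ^ 3 ≤ 16 * (2 * Λ) ^ 3 := by gcongr
      _ = 128 * Λ ^ 3 := by ring
  have hN0 : (0 : ℝ) ≤ N := Nat.cast_nonneg _
  obtain ⟨E, hE⟩ : ∃ E : ℝ, E = ((signSet g (-1) x).card : ℝ) := ⟨_, rfl⟩
  have hE0 : 0 ≤ E := by rw [hE]; exact Nat.cast_nonneg _
  rw [← hE]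
  rcases Nat.lt_or_ge x (1081600 * N ^ 9 * p) with hcase | hcase
  · have h1 : (x : ℝ) ≤ 1081600 * (N : ℝ) ^ 9 * p := by exact_mod_cast hcase.le
    calc (x : ℝ) ≤ 1081600 * (N : ℝ) ^ 9 * p := h1
      _ ≤ 1081600 * (128 * Λ ^ 3) ^ 9 * (p : ℝ) ^ 2 := by
          gcongr
          nlinarith
      _ = (1081600 * 128 ^ 9) * (p : ℝ) ^ 2 * Λ ^ 27 := by ring
      _ ≤ 10 ^ 58 * (p : ℝ) ^ 2 * Λ ^ 92 := by
          have h3 : Λ ^ 27 ≤ Λ ^ 92 := pow_le_pow_right₀ hΛ1 (by norm_num)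
          gcongr
          norm_num
      _ = 10 ^ 58 * (p : ℝ) ^ 2 * Λ ^ 92 * (0 + 1) := by ring
      _ ≤ _ := by gcongr
  · have h1 := edges_lower_poly h ha hab hk hr1 hxr hN hcase
    have h2 := card_badEdges_le h x
    obtain ⟨S, hS⟩ : ∃ S : ℝ, S = ∑ n ∈ signSet g (-1) x, (tau (n ^ 2 + 1) : ℝ) := ⟨_, rfl⟩
    have h3 : ((badEdges g x).card : ℝ) ≤ 8 * S := by
      have : (badEdges g x).card ≤ 8 * ∑ n ∈ signSet g (-1) x, tau (n ^ 2 + 1) := by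
        unfold tau
        exact h2
      rw [hS]
      exact_mod_cast this
    have hS0 : 0 ≤ S := by rw [hS]; exact Finset.sum_nonneg (fun i _ => Nat.cast_nonneg _)
    have h4 : (x : ℝ) ≤ 8306688 * (N : ℝ) ^ 10 * p * S := by
      calc (x : ℝ) ≤ 1038336 * (N : ℝ) ^ 10 * p * (badEdges g x).card := h1
        _ ≤ 1038336 * (N : ℝ) ^ 10 * p * (8 * S) := by gcongr
        _ = _ := by ring
    have h5 := card_lower (x := x) hx (A := signSet g (-1) x) (Finset.filter_subset _ _)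
    rw [← hS, ← hE, ← hΛ] at h5
    have h6 : (x : ℝ) * x ≤ x * ((8306688 ^ 2 * 12) * (N : ℝ) ^ 20 * (p : ℝ) ^ 2 * Λ ^ 32 * E) := by
      calc (x : ℝ) * x ≤ (8306688 * (N : ℝ) ^ 10 * p * S) * (8306688 * (N : ℝ) ^ 10 * p * S) :=
            mul_le_mul h4 h4 hx0.le (by positivity)
        _ = 8306688 ^ 2 * (N : ℝ) ^ 20 * (p : ℝ) ^ 2 * S ^ 2 := by ring
        _ ≤ 8306688 ^ 2 * (N : ℝ) ^ 20 * (p : ℝ) ^ 2 * (E * (12 * x * Λ ^ 32)) :=
            mul_le_mul_of_nonneg_left h5 (by positivity)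
        _ = _ := by ring
    have h7 := le_of_mul_le_mul_left h6 hx0
    have h8 : (N : ℝ) ^ 20 ≤ 128 ^ 20 * Λ ^ 60 := by
      calc (N : ℝ) ^ 20 ≤ (128 * Λ ^ 3) ^ 20 := by gcongr
        _ = 128 ^ 20 * Λ ^ 60 := by rw [mul_pow, ← pow_mul]
    calc (x : ℝ) ≤ (8306688 ^ 2 * 12) * (N : ℝ) ^ 20 * (p : ℝ) ^ 2 * Λ ^ 32 * E := h7
      _ ≤ (8306688 ^ 2 * 12) * (128 ^ 20 * Λ ^ 60) * (p : ℝ) ^ 2 * Λ ^ 32 * E := by gcongr
      _ = (8306688 ^ 2 * 12 * 128 ^ 20) * ((p : ℝ) ^ 2 * Λ ^ 92) * E := by ring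
      _ ≤ 10 ^ 58 * ((p : ℝ) ^ 2 * Λ ^ 92) * (E + 1) := by
          gcongr
          · norm_num
          · linarith
      _ = _ := by ring

end Pool.Agent.MP484c84Poly
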