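import Pool.Agent.Lib.MP484c84Poly.Alg

/-!
# Functionals attached to windows of a sequence
-/

set_option autoImplicit false

namespace Pool.Agent.MP484c84Poly

open Polynomial

section
variable {F : Type} [Field F]

/-- the functional with values `a j` at `X ^ j`, `j < h`, killing the multiples of `Φ` -/
noncomputable def ext (Φ : F[X]) (h : ℕ) (a : ℕ → F) : F[X] →ₗ[F] F :=
  (∑ j ∈ Finset.range h, a j • lcoeff F j) ∘ₗ modByMonicHom Φ

lemma ext_apply (Φ : F[X]) (h : ℕ) (a : ℕ → F) (P : F[X]) :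
    ext Φ h a P = ∑ j ∈ Finset.range h, a j * (P %ₘ Φ).coeff j := by
  simp [ext]

variable {Φ : F[X]} (hΦ : Φ.Monic)
include hΦ

lemma ext_mul (h : ℕ) (a : ℕ → F) (P : F[X]) : ext Φ h a (Φ * P) = 0 := by
  rw [ext_apply, (modByMonic_eq_zero_iff_dvd hΦ).2 (dvd_mul_right _ _)]
  simp

lemma ext_X_pow_lt {h : ℕ} (hdeg : Φ.natDegree = h) (a : ℕ → F) {j : ℕ} (hj : j < h) :
    ext Φ h a (X ^ j) = a j := by
  have h1 : (X ^ j : F[X]) %ₘ Φ = X ^ j := by
    rw [modByMonic_eq_self_iff hΦ, degree_X_pow, degree_eq_natDegree hΦ.ne_zero, hdeg]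
    exact_mod_cast hj
  rw [ext_apply, h1, Finset.sum_eq_single j]
  · simp
  · intro b _ hb
    rw [coeff_X_pow, if_neg hb, mul_zero]
  · intro h2
    exact absurd (Finset.mem_range.2 hj) h2

/-- a functional killing the multiples of `Φ` is determined by its values at `X ^ j`, `j < h` -/
lemma func_ext {h : ℕ} (hdeg : Φ.natDegree = h) {L L' : F[X] →ₗ[F] F}
    (hL : ∀ P, L (Φ * P) = 0) (hL' : ∀ P, L' (Φ * P) = 0)
    (heq : ∀ j < h, L (X ^ j) = L' (X ^ j)) (P : F[X]) : L P = L' P := by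
  have hmod : P %ₘ Φ = ∑ j ∈ Finset.range h, C ((P %ₘ Φ).coeff j) * X ^ j := by
    ext n
    rw [finsetSum_coeff]
    simp only [coeff_C_mul, coeff_X_pow]
    by_cases hn : n < h
    · rw [Finset.sum_eq_single n]
      · simp
      · intro b _ hb
        rw [if_neg (Ne.symm hb), mul_zero]
      · intro h2
        exact absurd (Finset.mem_range.2 hn) h2
    · rw [Finset.sum_eq_zero]
      · apply coeff_eq_zero_of_degree_lt
        refine lt_of_lt_of_le (degree_modByMonic_lt P hΦ) ?_
        rw [degree_eq_natDegree hΦ.ne_zero, hdeg]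
        exact_mod_cast not_lt.1 hn
      · intro b hb
        rw [Finset.mem_range] at hb
        rw [if_neg (by omega), mul_zero]
  have key : ∀ M : F[X] →ₗ[F] F, (∀ P, M (Φ * P) = 0) →
      M P = ∑ j ∈ Finset.range h, (P %ₘ Φ).coeff j * M (X ^ j) := by
    intro M hM
    have h1 : M P = M (P %ₘ Φ) := by
      conv_lhs => rw [← modByMonic_add_div P Φ]
      rw [map_add, hM, add_zero]
    rw [h1]
    conv_lhs => rw [hmod]
    rw [map_sum]
    refine Finset.sum_congr rfl ?_
    intro j _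
    rw [← smul_eq_C_mul, map_smul, smul_eq_mul]
  rw [key L hL, key L' hL']
  refine Finset.sum_congr rfl ?_
  intro j hj
  rw [heq j (Finset.mem_range.1 hj)]

omit hΦ in
lemma mul_X_pow_eq {h : ℕ} (hdeg : Φ.natDegree = h) (d i : ℕ) :
    expand F d Φ * X ^ i = ∑ j ∈ Finset.range (h + 1), C (Φ.coeff j) * X ^ (i + d * j) := by
  conv_lhs => rw [Φ.as_sum_range_C_mul_X_pow, hdeg]
  rw [map_sum, Finset.sum_mul]
  refine Finset.sum_congr rfl ?_
  intro j _
  rw [map_mul, map_pow, expand_X, expand_C, mul_assoc, ← pow_mul, ← pow_add]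
  congr 2
  ring

omit hΦ in
lemma apply_mul_X_pow {h : ℕ} (hdeg : Φ.natDegree = h) (L : F[X] →ₗ[F] F) (d i : ℕ) :
    L (expand F d Φ * X ^ i) = ∑ j ∈ Finset.range (h + 1), Φ.coeff j * L (X ^ (i + d * j)) := by
  rw [mul_X_pow_eq hdeg, map_sum]
  refine Finset.sum_congr rfl ?_
  intro j _
  rw [← smul_eq_C_mul, map_smul, smul_eq_mul]

lemma ext_X_pow {h : ℕ} (hdeg : Φ.natDegree = h) (a : ℕ → F) {I : ℕ}
    (hrel : ∀ i < I, ∑ j ∈ Finset.range (h + 1), Φ.coeff j * a (i + j) = 0) :
    ∀ n < I + h, ext Φ h a (X ^ n) = a n := by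
  intro n
  induction n using Nat.strong_induction_on with
  | _ n ih =>
    intro hn
    rcases Nat.lt_or_ge n h with hlt | hge
    · exact ext_X_pow_lt hΦ hdeg a hlt
    · obtain ⟨i, rfl⟩ : ∃ i, n = i + h := ⟨n - h, by omega⟩
      have h1 := apply_mul_X_pow hdeg (ext Φ h a) 1 i
      rw [expand_one, ext_mul hΦ, Finset.sum_range_succ] at h1
      have h2 := hrel i (by omega)
      rw [Finset.sum_range_succ] at h2
      have hc : Φ.coeff h = 1 := by rw [← hdeg]; exact hΦ
      rw [hc, one_mul] at h1 h2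
      rw [one_mul] at h1
      have h3 : ∑ j ∈ Finset.range h, Φ.coeff j * ext Φ h a (X ^ (i + 1 * j)) =
          ∑ j ∈ Finset.range h, Φ.coeff j * a (i + j) := by
        refine Finset.sum_congr rfl ?_
        intro j hj
        rw [Finset.mem_range] at hj
        rw [one_mul, ih (i + j) (by omega) (by omega)]
      rw [h3] at h1
      have h4 := h1.symm.trans h2.symm
      exact add_left_cancel h4

lemma ext_expand_mul {h : ℕ} (hdeg : Φ.natDegree = h) (a : ℕ → F) {d : ℕ}
    (hval : ∀ n ≤ h + d * h, ext Φ h a (X ^ n) = a n)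
    (hrel : ∀ i < h, ∑ j ∈ Finset.range (h + 1), Φ.coeff j * a (i + d * j) = 0) (P : F[X]) :
    ext Φ h a (expand F d Φ * P) = 0 := by
  have := func_ext hΦ hdeg (L := ext Φ h a ∘ₗ LinearMap.mulLeft F (expand F d Φ)) (L' := 0)
    (by
      intro P
      simp only [LinearMap.comp_apply, LinearMap.mulLeft_apply]
      rw [mul_left_comm]
      exact ext_mul hΦ _ _ _)
    (by intro P; rfl)
    (by
      intro i hi
      simp only [LinearMap.comp_apply, LinearMap.mulLeft_apply, LinearMap.zero_apply]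
      rw [apply_mul_X_pow hdeg, ← hrel i hi]
      refine Finset.sum_congr rfl ?_
      intro j hj
      rw [Finset.mem_range] at hj
      rw [hval]
      have : d * j ≤ d * h := Nat.mul_le_mul_left _ (by omega)
      omega) P
  simpa using this

/-- decimation -/
lemma ext_decimate {h : ℕ} (hdeg : Φ.natDegree = h) (a b : ℕ → F) {q : ℕ}
    (hval : ∀ n ≤ h + q * h, ext Φ h b (X ^ n) = b n)
    (hrel : ∀ i < h, ∑ j ∈ Finset.range (h + 1), Φ.coeff j * b (i + q * j) = 0)
    (hab : ∀ j < h, b (q * j) = a j) (P : F[X]) :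
    ext Φ h a P = ext Φ h b (expand F q P) := by
  have := func_ext hΦ hdeg (L := ext Φ h a)
    (L' := ext Φ h b ∘ₗ (expand F q).toLinearMap)
    (ext_mul hΦ h a)
    (by
      intro P
      simp only [LinearMap.comp_apply, AlgHom.toLinearMap_apply, map_mul]
      exact ext_expand_mul hΦ hdeg b hval hrel _)
    (by
      intro j hj
      simp only [LinearMap.comp_apply, AlgHom.toLinearMap_apply, map_pow, expand_X]
      rw [← pow_mul, hval _ (by
        have : q * j ≤ q * h := Nat.mul_le_mul_left _ hj.le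
        omega), hab j hj, ext_X_pow_lt hΦ hdeg a hj]) P
  simpa using this

end

end Pool.Agent.MP484c84Poly
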