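import Pool.Agent.Lib.MP484c84Poly.Angle
import Pool.Agent.Lib.MP484c84Par.Shift

/-!
# The basic relation
-/

set_option autoImplicit false

namespace Pool.Agent.MP484c84Poly

open Pool.Agent.MP484c84Par Real

lemma Dm_prod (G : Circ → ℤ) (B : Finset ℕ) (c : ℕ → ℤ) (α : ℕ → Circ) {μ : ℝ}
    (h : ∀ j ∈ B, Dm G (c j) (α j) ≤ μ) :
    Dm G (∏ j ∈ B, c j) (∑ j ∈ B, α j) ≤ B.card * μ := by
  classical
  induction B using Finset.induction_on with
  | empty => simp [Dm_zero]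
  | insert a s ha ih =>
    rw [Finset.prod_insert ha, Finset.sum_insert ha, Finset.card_insert_of_notMem ha]
    have h1 := ih (fun j hj => h j (Finset.mem_insert_of_mem hj))
    have h2 := h a (Finset.mem_insert_self a s)
    refine (Dm_add G (α a) (∑ j ∈ s, α j)).trans ?_
    push_cast
    linarith

lemma prod_sign {g : ℕ → ℤ} (h : CM g) (B : Finset ℕ) (z : ℕ → GaussianInt)
    (hz : ∀ j ∈ B, z j ≠ 0) : ∏ j ∈ B, F g (z j) = 1 ∨ ∏ j ∈ B, F g (z j) = -1 := by
  classical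
  induction B using Finset.induction_on with
  | empty => simp
  | insert a s ha ih =>
    rw [Finset.prod_insert ha]
    have h1 := ih (fun j hj => hz j (Finset.mem_insert_of_mem hj))
    have h2 := F_sign h (hz a (Finset.mem_insert_self a s))
    rcases h1 with h1 | h1 <;> rcases h2 with h2 | h2 <;> rw [h1, h2] <;> norm_num

theorem rel_prod {g : ℕ → ℤ} (h : CM g) {x n : ℕ} (hn : 0 < n) {τ : ℝ} (hτ : 0 < τ)
    (hτ' : 2 * τ < π / 2) (hx : 2 * n ^ 2 ≤ x) {r N : ℕ} (hr : 1 ≤ r) {A A' : Finset ℕ}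
    (hA : A ⊆ Finset.range N) (hA' : A' ⊆ Finset.range N) (hdis : Disjoint A A')
    (hmom : ∀ l < r, ∑ j ∈ A, j ^ l = ∑ j ∈ A', j ^ l)
    (hsmall : 4 * N * (1 / 4) ^ r ≤ τ) (hμ : (2 * N + 1) * muErr g x n τ < 2 * π)
    {z v : GaussianInt} (hz : z ≠ 0) (hzv : 4 * N * ‖(v : ℂ)‖ ≤ ‖(z : ℂ)‖)
    (hne : ∀ j < N, z + j * v ≠ 0)
    (hnorm : ∀ j < N, (z + j * v).norm * (2 * (n : ℤ) ^ 2) ≤ x) :
    ∏ j ∈ A ∪ A', F g (z + j * v) = 1 := by
  obtain ⟨t, ht, hteq⟩ := angle_small hr hA hA' hmom hz hzv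
  have hμ0 : 0 ≤ muErr g x n τ := muErr_nonneg hn hτ
  have hDm : ∀ B : Finset ℕ, B ⊆ Finset.range N →
      Dm (GF g n τ) (∏ j ∈ B, F g (z + j * v)) (∑ j ∈ B, gArg (z + j * v)) ≤
        N * muErr g x n τ := by
    intro B hB
    refine (Dm_prod (GF g n τ) B (fun j => F g (z + j * v)) (fun j => gArg (z + j * v))
      (μ := muErr g x n τ) ?_).trans ?_
    · intro j hj
      have hj' := Finset.mem_range.1 (hB hj)
      exact Dm_mul_le h hn hτ (by linarith) (hne j hj') (hnorm j hj')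
    · have : (B.card : ℝ) ≤ N := by
        have := Finset.card_le_card hB
        rw [Finset.card_range] at this
        exact_mod_cast this
      gcongr
  rw [Finset.prod_union hdis]
  have h1 := hDm A hA
  have h2 := hDm A' hA'
  have hs1 := prod_sign h A (fun j => z + j * v) (fun j hj => hne j (Finset.mem_range.1 (hA hj)))
  have hs2 := prod_sign h A' (fun j => z + j * v) (fun j hj => hne j (Finset.mem_range.1 (hA' hj)))
  have h3 := Dm_sub (GF g n τ) (σ := ∏ j ∈ A, F g (z + j * v)) (σ' := ∏ j ∈ A', F g (z + j * v))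
    (by rcases hs2 with h | h <;> rw [h] <;> norm_num)
    (∑ j ∈ A, gArg (z + j * v)) (∑ j ∈ A', gArg (z + j * v))
  rw [hteq] at h3
  have h4 := Dm_small_le h hn hτ hτ' hx (t := t) (ht.trans hsmall)
  have h5 : (∏ j ∈ A, F g (z + j * v)) * (∏ j ∈ A', F g (z + j * v)) = 1 ∨
      (∏ j ∈ A, F g (z + j * v)) * (∏ j ∈ A', F g (z + j * v)) = -1 := by
    rcases hs1 with h | h <;> rcases hs2 with h' | h' <;> simp only [h, h'] <;> norm_num
  rcases h5 with h5 | h5
  · exact h5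
  · exfalso
    rw [h5] at h3
    have h6 := Dm_compl (GF g n τ) (GF_ne_zero h n τ) (t : Circ)
    linarith

end Pool.Agent.MP484c84Poly
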